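import Mathlib
import Pool.Agent.Q217.Wein.ConeG

/-! Weinstein conjecture in every dimension for contact forms with a local torus symmetry, not
necessarily locally free, whose monodromy group, which is otherwise arbitrary, preserves a convex
cone on which the momentum is positive at a point of a smallest orbit. -/

open scoped Topology ContDiff Manifold
open Pool.Agent.H826R2.WStmt Pool.Agent.W669.ConeStmt Pool.Agent.TH607.FxStmt Pool.Agent.Q217.ConeS

namespace Pool.Agent.Results.MP_e3ee0c_gt.ConeAnyOrbits

universe u v w x

theorem result
    {E : Type u} [NormedAddCommGroup E] [NormedSpace ℝ E] [FiniteDimensional ℝ E]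
    -- a closed manifold `M` with a contact form `α` and its Reeb field `R`
    {M : Type v} [TopologicalSpace M] [ChartedSpace E M] [IsManifold 𝓘(ℝ, E) ∞ M]
    [T2Space M] [CompactSpace M]
    (α : M → Cov E) (hα : IsContact α) (R : M → E) (hR : IsReeb α R)
    -- a regular covering `q : P → M` with deck group `Γ`
    {P : Type w} [TopologicalSpace P] [ChartedSpace E P] [IsManifold 𝓘(ℝ, E) ∞ P]
    [T2Space P] [SigmaCompactSpace P]
    {Γ : Type x} [Group Γ] [MulAction Γ P] (q : P → M) (hq : IsQuotientMap E q Γ)
    -- a smooth action of an `m`-torus on `P`, `m ≥ 1`, preserving the lifted contact form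
    {m : ℕ} (hm : 0 < m) (A : TorusSymmetry (pull (E := E) q α) m)
    -- which is normalised by the deck group
    (hA : Normalises Γ A.act)
    -- a closed convex cone with interior points, virtually preserved by the monodromy up to sign
    (K : ConvexCone ℝ (Fin m → ℝ)) (hK : IsClosed (K : Set (Fin m → ℝ)))
    (hKi : (interior (K : Set (Fin m → ℝ))).Nonempty) (hAK : MonodromyPreserves Γ A.act K)
    -- at one point with an orbit of the smallest dimension the momentum is positive on this cone
    (x : P) (hmin : ∀ y, orbitDim E A.act x ≤ orbitDim E A.act y)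
    (hx : ∀ κ ∈ K, κ ≠ 0 → 0 < symMomentum A x κ) :
    -- the Reeb flow of `α` on `M` has a periodic orbit
    ∃ (c : ℝ → M) (T : ℝ), IsPeriodicOrbit R c T :=
  exists_periodic_cone_all α hα R hR q hq hm A hA K hK hKi hAK x hmin hx

end Pool.Agent.Results.MP_e3ee0c_gt.ConeAnyOrbits
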