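import Mathlib
import Pool.Agent.Q217.Wein.RedG

/-! Weinstein conjecture in every dimension for contact forms with a nontrivial local torus
symmetry, not necessarily locally free, whose monodromy group preserves a Lorentzian form. -/

open scoped Topology ContDiff Manifold
open Pool.Agent.H826R2.WStmt Pool.Agent.W669.LorStmt Pool.Agent.TH607.FxStmt

namespace Pool.Agent.Results.MP_e3ee0c_gt.LorentzAnyOrbits

universe u v w x

theorem result
    {E : Type u} [NormedAddCommGroup E] [NormedSpace ℝ E] [FiniteDimensional ℝ E]
    -- a closed manifold `M` with a contact form `α` and its Reeb field `R`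
    {M : Type v} [TopologicalSpace M] [ChartedSpace E M] [IsManifold 𝓘(ℝ, E) ∞ M]
    [T2Space M] [CompactSpace M]
    (α : M → Cov E) (hα : IsContact α) (R : M → E) (hR : IsReeb α R)
    -- a regular covering `q : P → M` with deck group `Γ`, `P` connected
    {P : Type w} [TopologicalSpace P] [ChartedSpace E P] [IsManifold 𝓘(ℝ, E) ∞ P]
    [T2Space P] [SigmaCompactSpace P] [ConnectedSpace P]
    {Γ : Type x} [Group Γ] [MulAction Γ P] (q : P → M) (hq : IsQuotientMap E q Γ)
    -- a smooth action of an `m`-torus on `P` preserving the lifted contact form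
    {m : ℕ} (A : TorusSymmetry (pull (E := E) q α) m)
    -- which is normalised by the deck group and nontrivial
    (hA : Normalises Γ A.act) (hne : ∃ θ y, A.act θ y ≠ y)
    -- a Lorentzian form on `ℝ^m` virtually preserved by the monodromy
    (G : Matrix (Fin m) (Fin m) ℝ) (hG : IsLorentzian G)
    (hAG : MonodromyPreservesForm Γ A.act G) :
    -- the Reeb flow of `α` on `M` has a periodic orbit
    ∃ (c : ℝ → M) (T : ℝ), IsPeriodicOrbit R c T :=
  Pool.Agent.Q217.LorS.exists_periodic_lorentz_all α hα R hR q hq A hA hne G hG hAG

end Pool.Agent.Results.MP_e3ee0c_gt.LorentzAnyOrbits
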