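import Mathlib
import Pool.Agent.Q217.Wein.ConeG
import Pool.Agent.Q193.W.Stmt
import Pool.Agent.Y520.Comm2

/-! Weinstein conjecture in every dimension for contact forms with a nontrivial local torus symmetry, not
necessarily locally free, with hypotheses only on the monodromy in the quotient by the isotropy algebra of one
point.

Let `α` be a contact form on a closed manifold, with a symmetry by an `m`-torus on a regular covering `P`, which
is normalised by the deck group `Γ` and nontrivial; it may have fixed points. Let `x` be a point of `P` whose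
torus orbit has the smallest dimension `r`. If `r ≤ 2` the Reeb flow has a periodic orbit. Otherwise consider
the isotropy algebra `𝔨` of `x` in `ℝ^m`, the quotient `ℝ^r = ℝ^m / 𝔨`, the matrices `D` by which those elements
of `Γ` act on the quotient whose monodromy preserves `𝔨`, and the momentum at `x`, a linear form on the quotient.
The Reeb flow has a periodic orbit if one of the following is true, virtually (`GoodQuotient`):

* the group of the `D` is solvable;
* the `D` preserve, up to sign, a closed convex cone with interior points on which the momentum is positive;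
* the `D` preserve a Lorentzian form;
* the `D` commute with a set of isometries of an inner product which has a cyclic covector;
* the `D` lie in a representation of a product of groups `SL^±` with enough positive weights;
* the `D` preserve a totally geodesic family of inner products for which the momentum is stable;
* the `D` preserve a totally geodesic family of inner products for which generic covectors are stable.

For locally free symmetries (`r = m`, `𝔨 = 0`) these seven cases are theorems of the starting files and of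
helper193 (the representations). If the symmetry is not locally free, the first three cases were known with the
much stronger hypothesis that the whole monodromy is solvable, or preserves a cone on which the momentum is
positive (so that `𝔨` meets it only in zero), or a Lorentzian form on `ℝ^m`; nothing was known in the other
cases. The proof is the reduction theorem of helper217 (`Q217.Wein.RedG`): the component of `x` of the fixed
point set of the isotropy torus covers a closed contact submanifold, invariant under the Reeb flow, with a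
locally free symmetry of the quotient torus. -/

open scoped Topology ContDiff Manifold
open Pool.Agent.H826R2.WStmt Pool.Agent.TH607.FxStmt Pool.Agent.Q217.ConeS

set_option autoImplicit false

namespace Pool.Agent.Results.MP_e3ee0c_gt.QuotientMonodromy

universe u v w x

/-- The real vector `M θ`, for an integer matrix `M`. -/
def app {a b : ℕ} (M : Matrix (Fin a) (Fin b) ℤ) (θ : Fin b → ℝ) : Fin a → ℝ :=
  fun i => ∑ j, (M i j : ℝ) * θ j

/-- The integer matrices `Q`, `J` with `Q J = 1` describe the quotient of `ℝ^m` by the isotropy algebra of the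
point `y` in an integral basis: the kernel of `Q` is the space of the `θ` with `(t θ) y = y` for all real `t`. -/
structure IsQuotientAt {P : Type w} {m r : ℕ} (act : (Fin m → ℝ) → P → P) (y : P)
    (Q : Matrix (Fin r) (Fin m) ℤ) (J : Matrix (Fin m) (Fin r) ℤ) : Prop where
  one : Q * J = 1
  ker : ∀ θ : Fin m → ℝ, app Q θ = 0 ↔ ∀ t : ℝ, act (t • θ) y = y

/-- The element `γ` acts by `γ (θ y) = (B θ) (γ y)` on the torus orbits. -/
def ActsBy {P : Type w} {Γ : Type x} [Group Γ] [MulAction Γ P] {m : ℕ} (act : (Fin m → ℝ) → P → P) (γ : Γ)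
    (B : Matrix (Fin m) (Fin m) ℤ) : Prop :=
  ∀ (θ : Fin m → ℝ) (y : P), γ • act θ y = act (app B θ) (γ • y)

/-- The matrix `B` preserves the kernel of `Q`; it induces the matrix `Q B J` on the quotient. -/
def PreservesKer {m r : ℕ} (Q : Matrix (Fin r) (Fin m) ℤ) (B : Matrix (Fin m) (Fin m) ℤ) : Prop :=
  ∀ θ : Fin m → ℝ, app Q θ = 0 → app Q (app B θ) = 0

/-- Virtually, the matrices induced by the monodromy on the quotient have the property `C`: for all elements
`γ` of a subgroup of finite index of `Γ`, if the monodromy of `γ` preserves the kernel of `Q`, the induced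
matrix has the property. -/
def Virtually {P : Type w} (Γ : Type x) [Group Γ] [MulAction Γ P] {m r : ℕ}
    (act : (Fin m → ℝ) → P → P) (Q : Matrix (Fin r) (Fin m) ℤ) (J : Matrix (Fin m) (Fin r) ℤ)
    (C : Matrix (Fin r) (Fin r) ℤ → Prop) : Prop :=
  ∃ Γ₀ : Subgroup Γ, Γ₀.FiniteIndex ∧ ∀ γ ∈ Γ₀, ∃ B : Matrix (Fin m) (Fin m) ℤ,
    ActsBy act γ B ∧ (PreservesKer Q B → C (Q * B * J))

/-- The seven properties of the monodromy on the quotient and of the momentum `μ`, a function on the
quotient. -/
inductive GoodQuotient {P : Type w} (Γ : Type x) [Group Γ] [MulAction Γ P] {m r : ℕ}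
    (act : (Fin m → ℝ) → P → P) (μ : (Fin r → ℝ) → ℝ) (Q : Matrix (Fin r) (Fin m) ℤ)
    (J : Matrix (Fin m) (Fin r) ℤ) : Prop
  /-- the monodromy on the quotient is virtually solvable -/
  | solvable (Γ₀ : Subgroup Γ) (_ : Γ₀.FiniteIndex) (n : ℕ)
      (_ : ∀ g ∈ derivedSeries Γ₀ n, ∃ B : Matrix (Fin m) (Fin m) ℤ, ActsBy act (g : Γ) B ∧
        (PreservesKer Q B → Q * B * J = 1))
  /-- it preserves a cone on which the momentum is positive, up to sign -/
  | cone (K : ConvexCone ℝ (Fin r → ℝ)) (_ : IsClosed (K : Set (Fin r → ℝ)))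
      (_ : (interior (K : Set (Fin r → ℝ))).Nonempty)
      (_ : Virtually Γ act Q J fun D => (∀ κ ∈ K, app D κ ∈ K) ∨ ∀ κ ∈ K, -app D κ ∈ K)
      (_ : ∀ κ ∈ K, κ ≠ 0 → 0 < μ κ)
  /-- it preserves a Lorentzian form -/
  | lorentz (G : Matrix (Fin r) (Fin r) ℝ) (_ : Pool.Agent.W669.LorStmt.IsLorentzian G)
      (_ : Virtually Γ act Q J fun D => ∀ κ κ' : Fin r → ℝ,
        Pool.Agent.W669.LorStmt.form G (app D κ) (app D κ') = Pool.Agent.W669.LorStmt.form G κ κ')
  /-- it commutes with a set of isometries of an inner product which has a cyclic covector -/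
  | commuting (𝒦 : Set (Matrix (Fin r) (Fin r) ℝ))
      (_ : Virtually Γ act Q J fun D => ∀ k ∈ 𝒦,
        D.map (Int.cast : ℤ → ℝ) * k = k * D.map (Int.cast : ℤ → ℝ))
      (S : Matrix (Fin r) (Fin r) ℝ) (_ : S.PosDef) (_ : ∀ k ∈ 𝒦, k * S * k.transpose = S)
      (a : Fin r → ℝ) (_ : Submodule.span ℝ {v | ∃ k ∈ 𝒦, v = k.transpose.mulVec a} = ⊤)
  /-- it lies in a representation of a product of groups `SL^±` with enough positive weights -/
  | representation {s : ℕ} {k : Fin s → ℕ} (ρ : Pool.Agent.Q193.W.Rep k r) (_ : ρ.Many)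
      (C : Matrix (Fin r) (Fin r) ℝ) (_ : C.det ≠ 0)
      (_ : Virtually Γ act Q J fun D => ∃ g : Pool.Agent.Q193.W.Mats k, (∀ i, |(g i).det| = 1) ∧
        D.map (Int.cast : ℤ → ℝ) * C = C * ρ.rho g)
  /-- it preserves a totally geodesic family of inner products for which the momentum is stable -/
  | stable (X : Set (Matrix (Fin r) (Fin r) ℝ)) (_ : Pool.Agent.Y520.SStmt.TotallyGeodesic X)
      (_ : Virtually Γ act Q J fun D => ∀ S ∈ X,
        D.map (Int.cast : ℤ → ℝ) * S * (D.map (Int.cast : ℤ → ℝ)).transpose ∈ X)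
      (_ : Pool.Agent.Y520.SStmt.IsStable X fun i => μ (Pi.single i 1))
  /-- it preserves a totally geodesic family of inner products for which all covectors outside a proper
  algebraic subset are stable -/
  | generic (X : Set (Matrix (Fin r) (Fin r) ℝ)) (_ : Pool.Agent.Y520.SStmt.TotallyGeodesic X)
      (_ : Virtually Γ act Q J fun D => ∀ S ∈ X,
        D.map (Int.cast : ℤ → ℝ) * S * (D.map (Int.cast : ℤ → ℝ)).transpose ∈ X)
      (F : MvPolynomial (Fin r) ℝ) (_ : F ≠ 0)
      (_ : ∀ a : Fin r → ℝ, MvPolynomial.eval a F ≠ 0 → Pool.Agent.Y520.SStmt.IsStable X a)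

section

variable {E : Type u} [NormedAddCommGroup E] [NormedSpace ℝ E] [FiniteDimensional ℝ E]
  {P : Type w} [TopologicalSpace P] [ChartedSpace E P] [IsManifold 𝓘(ℝ, E) ∞ P] [T2Space P]
  {Γ : Type x} [Group Γ] [MulAction Γ P]

/-- the monodromy of the reduced symmetry -/
theorem transfer {β : P → Cov E} {m r : ℕ} {A : TorusSymmetry β m} {x₀ : P}
    {P' : Type w} {Γ' : Type x} [Group Γ'] [MulAction Γ' P'] {act' : (Fin r → ℝ) → P' → P'}
    {val : P' → P} {f : Γ' →* Γ} {J : Matrix (Fin m) (Fin r) ℤ} {Q : Matrix (Fin r) (Fin m) ℤ}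
    (h : Reduced A x₀ act' val f J Q) {C : Matrix (Fin r) (Fin r) ℤ → Prop}
    (hV : Virtually Γ A.act Q J C) :
    ∃ Γ₀ : Subgroup Γ', Γ₀.FiniteIndex ∧ ∀ γ ∈ Γ₀, ∃ D : Matrix (Fin r) (Fin r) ℤ,
      (∀ (θ : Fin r → ℝ) (y : P'), γ • act' θ y =
        act' (fun i => ∑ j, (D i j : ℝ) * θ j) (γ • y)) ∧ C D := by
  obtain ⟨Γ₀, hΓ₀, hV⟩ := hV
  refine ⟨Γ₀.comap f, Pool.Agent.Q217.LorS.finiteIndex_comap f Γ₀, fun γ hγ => ?_⟩
  obtain ⟨B, hB, hC⟩ := hV (f γ) hγ
  exact ⟨Q * B * J, h.monodromy hB, hC (h.ker_of_monodromy hB)⟩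

end

theorem result
    {E : Type u} [NormedAddCommGroup E] [NormedSpace ℝ E] [FiniteDimensional ℝ E]
    -- a closed manifold `M` with a contact form `α` and its Reeb field `R`
    {M : Type v} [TopologicalSpace M] [ChartedSpace E M] [IsManifold 𝓘(ℝ, E) ∞ M]
    [T2Space M] [CompactSpace M]
    (α : M → Cov E) (hα : IsContact α) (R : M → E) (hR : IsReeb α R)
    -- a regular covering `q : P → M` with deck group `Γ`, `P` connected
    {P : Type w} [TopologicalSpace P] [ChartedSpace E P] [IsManifold 𝓘(ℝ, E) ∞ P]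
    [T2Space P] [SigmaCompactSpace P] [ConnectedSpace P]
    {Γ : Type x} [Group Γ] [MulAction Γ P] (q : P → M) (hq : IsQuotientMap E q Γ)
    -- a smooth action of an `m`-torus on `P` preserving the lifted contact form
    {m : ℕ} (A : TorusSymmetry (pull (E := E) q α) m)
    -- which is normalised by the deck group and nontrivial
    (hA : Normalises Γ A.act) (hne : ∃ θ y, A.act θ y ≠ y)
    -- a point with an orbit of the smallest dimension `r`
    (y : P) (hmin : ∀ z, orbitDim E A.act y ≤ orbitDim E A.act z)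
    -- if `r ≥ 3`, the monodromy on the quotient by the isotropy algebra of `y` is good
    (hgood : 3 ≤ orbitDim E A.act y → ∀ (Q : Matrix (Fin (orbitDim E A.act y)) (Fin m) ℤ)
      (J : Matrix (Fin m) (Fin (orbitDim E A.act y)) ℤ), IsQuotientAt A.act y Q J →
        GoodQuotient Γ A.act (fun κ => symMomentum A y (app J κ)) Q J) :
    -- the Reeb flow of `α` on `M` has a periodic orbit
    ∃ (c : ℝ → M) (T : ℝ), IsPeriodicOrbit R c T := by
  have hmax : A.toTS.MaxIso y := by
    intro z
    have h1 := orbitDim_eq A y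
    have h2 := orbitDim_eq A z
    have h3 := hmin z
    omega
  rcases Nat.lt_or_ge (orbitDim E A.act y) 3 with h3 | h3
  · exact exists_periodic_of_small α hα R hR q hq A hA hne y (by omega)
  have hr : 0 < orbitDim E A.act y := by omega
  refine reduction_gen α hα R hR q hq A hA y hmax
    (fun E' _ _ _ M' _ _ _ P' _ _ _ _ _ _ _ _ Γ' _ _ α' hα' R' hR' q' hq' A' hA' val f J Q hred
      hval hβ => ?_)
  obtain ⟨z, hz⟩ := hred.base
  have hmom : ∀ κ, Pool.Agent.W669.ConeStmt.momentum A' z κ = symMomentum A y (app J κ) := by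
    intro κ
    rw [momentum_reduced A A' hred hval hβ z κ, hz]
    rfl
  have hQ : IsQuotientAt A.act y Q J :=
    ⟨hred.QJ, fun θ => (hred.ker θ).trans A.toTS.mem_isoAlg_iff⟩
  cases hgood h3 Q J hQ with
  | solvable Γ₀ hΓ₀ n hs =>
    refine exists_periodic_solvable α' hα' R' hR' q' hq' hr A' hA'
      ⟨Γ₀.comap f, Pool.Agent.Q217.LorS.finiteIndex_comap f Γ₀, n, fun g hg θ y' => ?_⟩
    have hg' : (f.subgroupComap Γ₀) g ∈ derivedSeries Γ₀ n :=
      map_derivedSeries_le_derivedSeries (f.subgroupComap Γ₀) n
        (Subgroup.mem_map_of_mem _ hg)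
    obtain ⟨B, hB, hC⟩ := hs _ hg'
    have h1 := hred.monodromy (γ := (g : Γ')) hB θ y'
    rw [hC (hred.ker_of_monodromy (γ := (g : Γ')) hB), Pool.Agent.Q217.Wein.rl_one] at h1
    exact h1
  | cone K hK hKi hV hpos =>
    obtain ⟨Γ₀, hΓ₀, h⟩ := transfer hred hV
    refine Pool.Agent.W669.ConeStmt.exists_periodic_cone α' hα' R' hR' q' hq' hr A' hA' K hK hKi
      ⟨Γ₀, hΓ₀, h⟩ z (fun κ hκ h0 => ?_)
    rw [hmom]
    exact hpos κ hκ h0
  | lorentz G hG hV =>
    exact Pool.Agent.W669.LorStmt.exists_periodic_lorentz α' hα' R' hR' q' hq' A' hA' G hG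
      (transfer hred hV)
  | commuting 𝒦 hV S hS hSK a ha =>
    exact Pool.Agent.Y520.SStmt.exists_periodic_commuting α' hα' R' hR' q' hq' hr A' hA' 𝒦
      (transfer hred hV) S hS hSK a ha
  | representation ρ hρ C hC hV =>
    obtain ⟨Γ₀, hΓ₀, h⟩ := transfer hred hV
    refine Pool.Agent.Q193.W.exists_periodic_rep α' hα' R' hR' q' hq' hr A' hA' ρ hρ C hC
      ⟨Γ₀, hΓ₀, fun γ hγ => ?_⟩
    obtain ⟨D, h1, g, h2, h3⟩ := h γ hγ
    exact ⟨D, g, h1, h2, h3⟩
  | stable X hX hV hst =>
    refine Pool.Agent.Y520.SStmt.exists_periodic_stable α' hα' R' hR' q' hq' hr A' hA' X hX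
      (transfer hred hV) z ?_
    have h4 : (fun i => Pool.Agent.W669.ConeStmt.momentum A' z (Pi.single i 1)) =
        fun i => symMomentum A y (app J (Pi.single i 1)) := by
      funext i
      exact hmom _
    rw [h4]
    exact hst
  | generic X hX hV F hF hst =>
    exact Pool.Agent.Y520.SStmt.exists_periodic_generic α' hα' R' hR' q' hq' hr A' hA' X hX
      (transfer hred hV) F hF hst

end Pool.Agent.Results.MP_e3ee0c_gt.QuotientMonodromy
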