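import Pool.Agent.Q193.W.Stmt
import Pool.Agent.Q193.W.Copies

/-! Weinstein conjecture: closed Reeb orbits for contact forms with a local torus symmetry of any
rank, whose monodromy lies in a representation of a product of special linear groups with enough
positive weights. There is no hypothesis on the momentum, and none on the monodromy group inside
the representation.

Let `ρ` be a polynomial representation of `∏ GL_{k s}(ℝ)` on `ℝ^m` (in a basis of weight vectors,
transposed matrices acting by transposed matrices), and suppose that the monodromy group of the
local torus symmetry is virtually contained in `C ρ(∏ SL^±_{k s}(ℝ)) C⁻¹`. The hypothesis on `ρ`,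
`Rep.Many`, only concerns its weights: for every nonzero traceless real diagonal `h` there is a
nonzero traceless `h'` whose positive weights are among the positive weights of `h` and which has
more positive weights on `ℝ^m`, counted with multiplicities, than positive roots
(`h' s i > h' s j`).

* `Pool.Agent.Q193.W.copies_many`: `l ≥ n` copies of the standard representation of `GL_n`
  satisfy it, so that for contact forms with a local `(T^n)^l`-symmetry, `l ≥ n`, an arbitrary
  subgroup of `GL(n, ℤ)` is allowed as monodromy, acting diagonally.
* `Pool.Agent.Q193.W.two_many`: for `GL₂` it says that there are at least two positive weights;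
  among the representations without invariant vectors this excludes only `ℝ²` and `ℝ³`.

The proof: the matrices `C ρ(P) Cᵀ`, `P` positive definite of determinant one, form a totally
geodesic family `X` invariant under the monodromy. If a covector is not stable for `X`, then it lies
in `ρ(g) V(h)` for some `h`, `V(h)` the sum of the weight spaces on which `h` is not positive
(compactness of the orthogonal group). All these vectors lie in a proper algebraic subset: the
parabolic group of `h` preserves `V(h)`, so that `⋃ ρ(u) V(h)`, `u` in the opposite unipotent group,
is the image of a polynomial map in less than `m` variables, hence is annihilated by a nonzero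
polynomial, which by the identity theorem annihilates `ρ(g) V(h)` for all matrices `g`. -/

open scoped Topology ContDiff Manifold
open Pool.Agent.H826R2.WStmt Pool.Agent.Q193.W

namespace Pool.Agent.Results.MP_e3ee0c_gt.SpecialLinearMonodromy

universe u v w x

theorem result
    {E : Type u} [NormedAddCommGroup E] [NormedSpace ℝ E] [FiniteDimensional ℝ E]
    -- a closed manifold `M` with a contact form `α` and its Reeb field `R`
    {M : Type v} [TopologicalSpace M] [ChartedSpace E M] [IsManifold 𝓘(ℝ, E) ∞ M]
    [T2Space M] [CompactSpace M]
    (α : M → Cov E) (hα : IsContact α) (R : M → E) (hR : IsReeb α R)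
    -- a regular covering `q : P → M` with deck group `Γ`
    {P : Type w} [TopologicalSpace P] [ChartedSpace E P] [IsManifold 𝓘(ℝ, E) ∞ P]
    [T2Space P] [SigmaCompactSpace P] [Nonempty P]
    {Γ : Type x} [Group Γ] [MulAction Γ P] (q : P → M) (hq : IsQuotientMap E q Γ)
    -- a locally free action of an `m`-torus on `P`, `m ≥ 1`, preserving the lifted contact form
    {m : ℕ} (hm : 0 < m) (A : TorusAction (pull (E := E) q α) m)
    -- which is normalised by the deck group
    (hA : Normalises Γ A.act)
    -- a polynomial representation of `∏ GL_{k s}(ℝ)` on `ℝ^m` with enough positive weights
    {r : ℕ} {k : Fin r → ℕ} (ρ : Rep k m) (hρ : ρ.Many)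
    -- which virtually contains the monodromy in some real coordinates
    (C : Matrix (Fin m) (Fin m) ℝ) (hC : C.det ≠ 0) (hAC : MonodromyIn Γ A.act ρ C) :
    -- the Reeb flow of `α` on `M` has a periodic orbit
    ∃ (c : ℝ → M) (T : ℝ), IsPeriodicOrbit R c T :=
  exists_periodic_rep α hα R hR q hq hm A hA ρ hρ C hC hAC

end Pool.Agent.Results.MP_e3ee0c_gt.SpecialLinearMonodromy
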